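import Pool.Agent.H.MP_95d7dd_gt.Main

set_option autoImplicit false

namespace Pool.Agent.Results.MP_95d7dd_gt.Plane

open Pool.Agent.H.MP_95d7dd_gt

theorem result (A B : Set (EuclideanSpace ℝ (Fin 2)))
    (hA : IsRO A) (hB : IsRO B) (s t : EuclideanSpace ℝ (Fin 2)) (hs : Apart A s)
    (ht : Apart B t) (h : Equi (A ∪ (fun x => x + s) '' A) (B ∪ (fun x => x + t) '' B)) :
    Equi A B :=
  canc 2 (Or.inr rfl) A B hA hB s t hs.disjoint ht.disjoint h

end Pool.Agent.Results.MP_95d7dd_gt.Plane
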